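import Pool.Agent.helper68.SF.SpecF

/-!
# sf:INF, the orbit of `a⁴ b³` is infinite, and `a⁴ b³` is primitive
-/

set_option autoImplicit false

namespace SF

open Pool.Agent.helper72.Sq

theorem INF_ab : (ab (ga ^ 4 * gb ^ 3)).toAdd = (4, 3) := by
  rw [map_mul, map_pow, map_pow]
  simp only [ab, mk2_a, mk2_b, toAdd_mul, toAdd_pow, toAdd_ofAdd]
  simp

theorem INF : INF_stmt := by
  constructor
  · have hA : (twA : MulAut F2) ∈ MCG := Subgroup.subset_closure (by simp)
    refine Infinite.of_injective (fun k : ℕ =>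
      (⟨cl (((twA : MulAut F2) ^ k) (ga ^ 4 * gb ^ 3)), _, MCG.pow_mem hA k, rfl⟩ :
        orb (ga ^ 4 * gb ^ 3))) ?_
    intro k k' h
    have heq : cl (((twA : MulAut F2) ^ k) (ga ^ 4 * gb ^ 3)) =
        cl (((twA : MulAut F2) ^ k') (ga ^ 4 * gb ^ 3)) := congrArg Subtype.val h
    have t1 := ab_twA_pow (ga ^ 4 * gb ^ 3) k
    have t2 := ab_twA_pow (ga ^ 4 * gb ^ 3) k'
    rw [INF_ab] at t1 t2
    rcases ab_cl heq with h1 | h1
    · rw [h1, t2] at t1
      have h3 := congrArg Prod.fst t1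
      simp only at h3
      omega
    · rw [h1, toAdd_inv, t2] at t1
      have h3 := congrArg Prod.snd t1
      simp only [Prod.neg_mk] at h3
      omega
  · intro h n hn
    have h1 := congrArg (fun x => (ab x).toAdd) hn
    simp only [map_zpow, toAdd_zpow] at h1
    rw [INF_ab] at h1
    have h2 := congrArg Prod.fst h1
    have h3 := congrArg Prod.snd h1
    simp only [Prod.smul_fst, Prod.smul_snd, smul_eq_mul] at h2 h3
    have h4 : n ∣ 1 := by
      have : (1 : ℤ) = n * ((ab h).toAdd.1 - (ab h).toAdd.2) := by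
        rw [mul_sub, ← h2, ← h3]; norm_num
      exact ⟨_, this⟩
    rcases Int.isUnit_iff.1 (isUnit_of_dvd_one h4) with h5 | h5
    · exact Or.inl h5
    · exact Or.inr h5

end SF
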