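import Pool.Agent.helper1.SF.SpecA

/-!
# sa:PKC, variation of packets
-/

set_option autoImplicit false

namespace SF

open Pool.Agent.helper72.Sq MeasureTheory Set
open scoped ContDiff

theorem PKC_int (f : ℝ → ℝ) (K κ : ℝ) (h0 : 0 ≤ κ) (h1 : κ ≤ 1)
    (hK : ∀ σ ∈ Ioc 1 (1 + κ), |f σ| ≤ K) (hz : ∀ σ ∈ Ioc (1 : ℝ) 2, 1 + κ < σ → f σ = 0) :
    ∫ σ in (1 : ℝ)..2, f σ ≤ K * κ := by
  rw [intervalIntegral.integral_of_le (by norm_num)]
  have hsub : Ioc (1 : ℝ) (1 + κ) ⊆ Ioc 1 2 := fun x hx => ⟨hx.1, by linarith [hx.2]⟩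
  have e : ∫ σ in Ioc (1 : ℝ) 2, f σ = ∫ σ in Ioc (1 : ℝ) (1 + κ), f σ := by
    apply setIntegral_eq_of_subset_of_forall_sdiff_eq_zero measurableSet_Ioc hsub
    intro x hx
    apply hz x hx.1
    by_contra h
    exact hx.2 ⟨hx.1.1, not_lt.1 h⟩
  rw [e]
  have h2 := norm_setIntegral_le_of_norm_le_const (μ := volume) (s := Ioc (1 : ℝ) (1 + κ)) (f := f)
    (C := K) (by simp) (fun x hx => by rw [Real.norm_eq_abs]; exact hK x hx)
  have h3 : (volume : Measure ℝ).real (Ioc (1 : ℝ) (1 + κ)) = κ := by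
    rw [Real.volume_real_Ioc]
    simp [h0]
  rw [h3] at h2
  exact (le_abs_self _).trans h2

theorem PKC_bound (hA : PKA_stmt) : ∃ M : ℝ, 0 < M ∧ ∀ k : ℕ, ∀ a : ℝ, 1 < a →
    |deriv (pk k) a| ≤ M * √(2 ^ k) := by
  obtain ⟨hs, hsupp, _⟩ := hA
  have hc : HasCompactSupport E0 := by
    apply HasCompactSupport.intro (isCompact_Icc (a := (1 / 8 : ℝ)) (b := 1 / 2))
    intro x hx
    by_contra h
    have := hsupp x h
    exact hx ⟨this.1.le, this.2.le⟩
  obtain ⟨M1, hM1⟩ := hs.continuous.bounded_above_of_compact_support hc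
  obtain ⟨M2, hM2⟩ := (hs.continuous_deriv (by simp)).bounded_above_of_compact_support hc.deriv
  have hM1' : ∀ x, |E0 x| ≤ M1 := fun x => by rw [← Real.norm_eq_abs]; exact hM1 x
  have hM2' : ∀ x, |deriv E0 x| ≤ M2 := fun x => by rw [← Real.norm_eq_abs]; exact hM2 x
  have hM1n : 0 ≤ M1 := (abs_nonneg _).trans (hM1' 0)
  have hM2n : 0 ≤ M2 := (abs_nonneg _).trans (hM2' 0)
  refine ⟨M1 + M2 + 1, by linarith, ?_⟩
  intro k a ha
  have ha0 : a ≠ 0 := by linarith
  have h2k : (1 : ℝ) ≤ 2 ^ k := one_le_pow₀ (by norm_num)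
  set N : ℝ := 2 ^ k with hN
  have hNa : 0 < N * a := by nlinarith
  set s := √(N * a) with hsdef
  have hspos : 0 < s := Real.sqrt_pos.2 hNa
  have hs2 : s ^ 2 = N * a := Real.sq_sqrt hNa.le
  have hd : HasDerivAt (pk k)
      ((deriv E0 (N * (1 - 1 / a)) * (N * (1 / a ^ 2)) * s - E0 (N * (1 - 1 / a)) * (N / (2 * s))) /
        s ^ 2) a := by
    have h1 : HasDerivAt (fun a : ℝ => N * (1 - 1 / a)) (N * (1 / a ^ 2)) a := by
      have h := ((hasDerivAt_inv ha0).const_sub 1).const_mul N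
      have e1 : N * -(-(a ^ 2)⁻¹) = N * (1 / a ^ 2) := by rw [neg_neg, one_div]
      rw [e1] at h
      simpa only [one_div] using h
    have h2 : HasDerivAt E0 (deriv E0 (N * (1 - 1 / a))) (N * (1 - 1 / a)) :=
      ((hs.differentiable (by simp)) _).hasDerivAt
    have h3 : HasDerivAt (fun a : ℝ => E0 (N * (1 - 1 / a)))
        (deriv E0 (N * (1 - 1 / a)) * (N * (1 / a ^ 2))) a :=
      HasDerivAt.comp (h₂ := E0) (h := fun a : ℝ => N * (1 - 1 / a)) a h2 h1
    have h4 : HasDerivAt (fun a : ℝ => √(N * a)) (N / (2 * s)) a := by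
      have h := ((hasDerivAt_id a).const_mul N).sqrt hNa.ne'
      simpa using h
    have h5 := h3.div h4 hspos.ne'
    apply h5.congr_of_eventuallyEq
    filter_upwards [lt_mem_nhds ha] with b hb
    simp only [pk, if_pos hb, Pi.div_apply]
    rw [← hN]
  rw [hd.deriv]
  have hsN : √N ≤ s := Real.sqrt_le_sqrt (by nlinarith)
  have hsN1 : 1 ≤ √N := by
    rw [show (1 : ℝ) = √1 by simp]
    exact Real.sqrt_le_sqrt h2k
  have hNs : N = √N ^ 2 := (Real.sq_sqrt (by linarith)).symm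
  have hs2N : N ≤ s ^ 2 := by rw [hs2]; nlinarith
  have ha2 : 1 / a ^ 2 ≤ 1 := by
    rw [div_le_one (by positivity)]
    nlinarith
  have ha2n : 0 ≤ 1 / a ^ 2 := by positivity
  have t1 : |deriv E0 (N * (1 - 1 / a)) * (N * (1 / a ^ 2)) * s / s ^ 2| ≤ M2 * √N := by
    have e1 : deriv E0 (N * (1 - 1 / a)) * (N * (1 / a ^ 2)) * s / s ^ 2 =
        deriv E0 (N * (1 - 1 / a)) * ((1 / a ^ 2) * (N / s)) := by
      field_simp
    rw [e1, abs_mul]
    apply mul_le_mul (hM2' _) _ (abs_nonneg _) hM2n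
    rw [abs_of_nonneg (by positivity)]
    have h6 : N / s ≤ √N := by
      rw [div_le_iff₀ hspos]
      nlinarith
    have h7 : 0 ≤ N / s := by positivity
    nlinarith
  have t2 : |E0 (N * (1 - 1 / a)) * (N / (2 * s)) / s ^ 2| ≤ M1 * √N := by
    have e1 : E0 (N * (1 - 1 / a)) * (N / (2 * s)) / s ^ 2 =
        E0 (N * (1 - 1 / a)) * (N / s ^ 2 * (1 / (2 * s))) := by
      field_simp
    rw [e1, abs_mul]
    apply mul_le_mul (hM1' _) _ (abs_nonneg _) hM1n
    rw [abs_of_nonneg (by positivity)]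
    have h6 : N / s ^ 2 ≤ 1 := by
      rw [div_le_one (by positivity)]
      exact hs2N
    have h7 : 1 / (2 * s) ≤ 1 := by
      rw [div_le_one (by positivity)]
      linarith
    have h8 : 0 ≤ 1 / (2 * s) := by positivity
    have h9 : 0 ≤ N / s ^ 2 := by positivity
    nlinarith
  rw [sub_div]
  have t3 := abs_sub (deriv E0 (N * (1 - 1 / a)) * (N * (1 / a ^ 2)) * s / s ^ 2)
    (E0 (N * (1 - 1 / a)) * (N / (2 * s)) / s ^ 2)
  have hsn : 0 ≤ √N := Real.sqrt_nonneg _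
  nlinarith

theorem PKC (hA : PKA_stmt) : PKC_stmt := by
  obtain ⟨M, hM, hb⟩ := PKC_bound hA
  obtain ⟨_, _, hP⟩ := hA
  refine ⟨3 * M, by linarith, ?_⟩
  intro k
  obtain ⟨hprof, _, _, hz⟩ := hP k
  have h2k : (1 : ℝ) ≤ 2 ^ k := one_le_pow₀ (by norm_num)
  have hNs : √((2 : ℝ) ^ k) ^ 2 = 2 ^ k := Real.sq_sqrt (by linarith)
  have hsN1 : 1 ≤ √((2 : ℝ) ^ k) := by
    rw [show (1 : ℝ) = √1 by simp]
    exact Real.sqrt_le_sqrt h2k
  have hk3 : (2 : ℝ) ^ (k + 3) = 8 * 2 ^ k := by rw [pow_add]; ring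
  -- the derivative vanishes outside the support
  have hd0 : ∀ σ : ℝ, σ < 1 + 1 / 2 ^ (k + 3) ∨ 1 + 1 / 2 ^ k < σ → deriv (pk k) σ = 0 := by
    intro σ hσ
    have h8 : 8 * (1 / (2 : ℝ) ^ (k + 3)) = 1 / 2 ^ k := by
      rw [hk3]
      field_simp
    rw [h8] at hz
    rcases hσ with hσ | hσ
    · have he : pk k =ᶠ[nhds σ] fun _ => 0 := by
        filter_upwards [gt_mem_nhds hσ] with b hb
        exact hz b (Or.inl hb.le)
      rw [he.deriv_eq]
      simp
    · have he : pk k =ᶠ[nhds σ] fun _ => 0 := by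
        filter_upwards [lt_mem_nhds hσ] with b hb
        exact hz b (Or.inr hb.le)
      rw [he.deriv_eq]
      simp
  have hκ0 : (0 : ℝ) ≤ 1 / 2 ^ k := by positivity
  have hκ1 : (1 : ℝ) / 2 ^ k ≤ 1 := by
    rw [div_le_one (by positivity)]
    exact h2k
  constructor
  · have h := PKC_int (fun σ => |deriv (pk k) σ|) (M * √(2 ^ k)) (1 / 2 ^ k) hκ0 hκ1
      (fun σ hσ => by simpa using hb k σ hσ.1)
      (fun σ _ h => by simp [hd0 σ (Or.inr h)])
    refine h.trans ?_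
    have e : M * √((2 : ℝ) ^ k) * (1 / 2 ^ k) = M / √(2 ^ k) := by
      rw [← hNs, Real.sqrt_sq (Real.sqrt_nonneg _)]
      field_simp
    rw [e]
    apply div_le_div_of_nonneg_right _ (Real.sqrt_nonneg _)
    linarith
  · have h := PKC_int (fun σ => |deriv (pk k) σ| / √(σ - 1)) (3 * M * 2 ^ k) (1 / 2 ^ k) hκ0 hκ1
      (fun σ hσ => ?_)
      (fun σ _ h => by simp [hd0 σ (Or.inr h)])
    · refine h.trans ?_
      have e : 3 * M * (2 : ℝ) ^ k * (1 / 2 ^ k) = 3 * M := by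
        field_simp
      rw [e]
    · by_cases hσ2 : σ < 1 + 1 / 2 ^ (k + 3)
      · rw [hd0 σ (Or.inl hσ2)]
        simp
        positivity
      · have hσ3 : 1 + 1 / 2 ^ (k + 3) ≤ σ := not_lt.1 hσ2
        have h1 : 1 / (9 * (2 : ℝ) ^ k) ≤ σ - 1 := by
          have : 1 / (9 * (2 : ℝ) ^ k) ≤ 1 / 2 ^ (k + 3) := by
            rw [hk3]
            apply one_div_le_one_div_of_le (by positivity)
            linarith
          linarith
        have h2 : 1 / (3 * √((2 : ℝ) ^ k)) ≤ √(σ - 1) := by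
          apply Real.le_sqrt_of_sq_le
          refine le_trans (le_of_eq ?_) h1
          rw [div_pow, mul_pow, hNs]
          norm_num
        have hpos : 0 < √(σ - 1) := lt_of_lt_of_le (by positivity) h2
        rw [abs_div, abs_abs, abs_of_pos hpos, div_le_iff₀ hpos]
        have h3 := hb k σ hσ.1
        have h4 : 3 * M * (2 : ℝ) ^ k * (1 / (3 * √((2 : ℝ) ^ k))) = M * √(2 ^ k) := by
          have : (2 : ℝ) ^ k = √(2 ^ k) * √(2 ^ k) := by rw [← sq, hNs]
          rw [div_eq_mul_inv, mul_inv]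
          field_simp
          exact hNs.symm
        calc |deriv (pk k) σ| ≤ M * √(2 ^ k) := h3
          _ = 3 * M * (2 : ℝ) ^ k * (1 / (3 * √((2 : ℝ) ^ k))) := h4.symm
          _ ≤ 3 * M * (2 : ℝ) ^ k * √(σ - 1) := by
              apply mul_le_mul_of_nonneg_left h2
              positivity

end SF
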