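import Pool.Agent.helper68.SF.SpecW

/-!
# sw:W7, bounds at the time `5/2`
-/

set_option autoImplicit false

namespace SF

open Pool.Agent.helper72.Sq
open scoped ContDiff

theorem W7_psi (n : ℤ) : psi (n : ℝ) = 0 := by
  have h : ∀ r : ℝ, 0 < r → Real.sign (0 - r) = -1 := fun r hr => Real.sign_of_neg (by linarith)
  rw [psi, c5, Int.fract_intCast, h _ (by norm_num), h _ (by norm_num), h _ (by norm_num),
    h _ (by norm_num)]
  norm_num

/-- the primitive vectors with `v.1 = 0` -/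
theorem W7_v {v : ℤ × ℤ} (hv : v ∈ Pv) (h0 : v.1 = 0) : v = (0, 1) ∨ v = (0, -1) := by
  obtain ⟨a, b⟩ := v
  simp only at h0
  subst h0
  have h1 : Int.gcd 0 b = 1 := hv
  rw [Int.gcd_zero_left] at h1
  have h2 : b = 1 ∨ b = -1 := by omega
  rcases h2 with h2 | h2
  · left
    rw [h2]
  · right
    rw [h2]

theorem W7_FF {v : ℤ × ℤ} (hv : v = (0, 1) ∨ v = (0, -1)) :
    ∃ n : ℤ, ∀ (g : ℝ → ℝ) (s x y : ℝ), FF g v s x y = RR g s (x + n) y n := by
  have key : ∀ (e : ℤ), e * e = 1 → v = (0, e) →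
      ∃ n : ℤ, ∀ (g : ℝ → ℝ) (s x y : ℝ), FF g v s x y = RR g s (x + n) y n := by
    intro e he hve
    have hb : Int.gcdB 0 e * e = 1 := by
      have h1 := Int.gcd_eq_gcd_ab 0 e
      have h2 : Int.gcd 0 e = 1 := by
        rw [Int.gcd_zero_left]
        have : e.natAbs * e.natAbs = 1 := by
          rw [← Int.natAbs_mul, he]
          rfl
        exact Nat.eq_one_of_mul_eq_one_left this
      rw [h2, zero_mul, zero_add] at h1
      rw [mul_comm]
      exact_mod_cast h1.symm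
    have heR : (e : ℝ) * e = 1 := by exact_mod_cast he
    have hbR : ((Int.gcdB 0 e : ℤ) : ℝ) * e = 1 := by exact_mod_cast hb
    refine ⟨-Int.gcdA 0 e * e, fun g s x y => ?_⟩
    have hX : ∀ x y : ℝ, XX v x y = x + ((-Int.gcdA 0 e * e : ℤ) : ℝ) := by
      intro x y
      rw [hve]
      simp only [XX, Xr]
      push_cast
      have h1 : (0 * x + (e : ℝ)) ^ 2 + (0 * y) ^ 2 = 1 := by
        linear_combination heR
      rw [h1]
      linear_combination x * hbR
    have hY : YY v x y = y := by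
      rw [hve]
      simp only [YY, Yr]
      push_cast
      have h1 : (0 * x + (e : ℝ)) ^ 2 + (0 * y) ^ 2 = 1 := by
        linear_combination heR
      rw [h1, div_one]
    rw [FF, hX x y, hX 0 1, hY, zero_add, W7_psi, zero_mul, zero_add]
  rcases hv with h | h
  · exact key 1 (by norm_num) h
  · exact key (-1) (by norm_num) h

/-- sums over the primitive vectors -/
theorem W7_sum (T : Finset (ℤ × ℤ)) (h : ℤ × ℤ → ℝ) (a b : ℝ) (ha : 0 ≤ a)
    (h0 : ∀ v ∈ Pv, v.1 ≠ 0 → v ∉ T → h v = 0) (h1 : ∀ v ∈ Pv, v.1 ≠ 0 → |h v| ≤ a)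
    (h2 : ∀ v, (v = (0, 1) ∨ v = (0, -1)) → |h v| ≤ b) :
    |∑ᶠ v ∈ Pv, h v| ≤ T.card * a + 2 * b := by
  classical
  set S : Finset (ℤ × ℤ) := {(0, 1), (0, -1)} with hS
  have hSm : ∀ v, v ∈ S ↔ v = (0, 1) ∨ v = (0, -1) := fun v => by
    rw [hS, Finset.mem_insert, Finset.mem_singleton]
  have e1 : ∑ᶠ v ∈ Pv, h v = ∑ v ∈ S ∪ (T \ S), Pv.indicator h v := by
    rw [finsum_mem_def]
    refine finsum_eq_sum_of_support_subset _ fun v hv => ?_
    rw [Function.mem_support] at hv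
    have hvP : v ∈ Pv := by
      by_contra hh
      exact hv (Set.indicator_of_notMem hh h)
    rw [Set.indicator_of_mem hvP] at hv
    rw [Finset.mem_coe, Finset.mem_union, Finset.mem_sdiff]
    by_cases hS' : v ∈ S
    · exact Or.inl hS'
    · right
      refine ⟨?_, hS'⟩
      by_contra hT
      refine hv (h0 v hvP ?_ hT)
      intro hv0
      exact hS' ((hSm v).2 (W7_v hvP hv0))
  rw [e1]
  refine (Finset.abs_sum_le_sum_abs _ _).trans ?_
  rw [Finset.sum_union Finset.disjoint_sdiff]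
  have hb0 : 0 ≤ b := le_trans (abs_nonneg _) (h2 (0, 1) (Or.inl rfl))
  have f1 : ∑ v ∈ S, |Pv.indicator h v| ≤ 2 * b := by
    have hc : S.card ≤ 2 := Finset.card_le_two
    calc ∑ v ∈ S, |Pv.indicator h v| ≤ ∑ v ∈ S, b := Finset.sum_le_sum fun v hv => by
          by_cases hvP : v ∈ Pv
          · rw [Set.indicator_of_mem hvP]
            exact h2 v ((hSm v).1 hv)
          · rw [Set.indicator_of_notMem hvP, abs_zero]
            exact hb0
      _ = S.card * b := by rw [Finset.sum_const, nsmul_eq_mul]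
      _ ≤ 2 * b := by
        refine mul_le_mul_of_nonneg_right ?_ hb0
        exact_mod_cast hc
  have f2 : ∑ v ∈ T \ S, |Pv.indicator h v| ≤ T.card * a := by
    calc ∑ v ∈ T \ S, |Pv.indicator h v| ≤ ∑ v ∈ T \ S, a := Finset.sum_le_sum fun v hv => by
          by_cases hvP : v ∈ Pv
          · rw [Set.indicator_of_mem hvP]
            refine h1 v hvP fun hv0 => ?_
            exact (Finset.mem_sdiff.1 hv).2 ((hSm v).2 (W7_v hvP hv0))
          · rw [Set.indicator_of_notMem hvP, abs_zero]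
            exact ha
      _ = (T \ S).card * a := by rw [Finset.sum_const, nsmul_eq_mul]
      _ ≤ T.card * a := by
        refine mul_le_mul_of_nonneg_right ?_ ha
        exact_mod_cast Finset.card_le_card Finset.sdiff_subset
  linarith

/-- the terms are smooth -/
theorem W7_sm (hRA : RA_stmt) (hB01 : B01_stmt) (hMOB : MOB_stmt) (hMG : MG_stmt)
    {g : ℝ → ℝ} (hg : Prof g) {v : ℤ × ℤ} (hv : v ∈ Pv) : Sm (FF g v) := by
  have hdt := hMG.1 v hv
  have hdtR : ((Int.gcdB v.1 v.2 : ℤ) : ℝ) * (v.2 : ℝ) - (-((Int.gcdA v.1 v.2 : ℤ) : ℝ)) * (v.1 : ℝ) = 1 := by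
    have h1 : Int.gcdB v.1 v.2 * v.2 - (-Int.gcdA v.1 v.2) * v.1 = 1 := hdt
    exact_mod_cast h1
  have hpos : 0 < ((Int.gcdB v.1 v.2 : ℤ) : ℝ) * (v.2 : ℝ) - (-((Int.gcdA v.1 v.2 : ℤ) : ℝ)) * (v.1 : ℝ) := by
    rw [hdtR]
    norm_num
  obtain ⟨s1, w1, -⟩ := (hB01 g hg).1
  obtain ⟨s2, w2, -⟩ := hRA g hg (XX v 0 1)
  obtain ⟨m1, -⟩ := hMOB _ _ _ _ hpos _ s1 w1
  obtain ⟨m2, -⟩ := hMOB _ _ _ _ hpos _ s2 w2
  have e : (fun p : ℝ × ℝ × ℝ => FF g v p.1 p.2.1 p.2.2) = fun p : ℝ × ℝ × ℝ =>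
      psi (XX v 0 1) * Mb (Int.gcdB v.1 v.2) (-(Int.gcdA v.1 v.2 : ℝ)) v.1 v.2
        (fun s _ y => b0 g s y) p.1 p.2.1 p.2.2 +
      Mb (Int.gcdB v.1 v.2) (-(Int.gcdA v.1 v.2 : ℝ)) v.1 v.2
        (fun s x y => RR g s x y (XX v 0 1)) p.1 p.2.1 p.2.2 := by
    funext p
    simp only [FF, Mb, hdtR, one_mul]
    rfl
  rw [Sm, e]
  exact (contDiffOn_const.mul m1).add m2

/-- term by term `y`-derivative of the wave -/
theorem W7_dY (hBS : BS_stmt) (hRA : RA_stmt) (hB01 : B01_stmt) (hMOB : MOB_stmt) (hMG : MG_stmt)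
    (hLF : LF_stmt) {g : ℝ → ℝ} (hg : Prof g) (s x y : ℝ) (hy : 0 < y) :
    dY (ww g) s x y = 1 / 2 * ∑ᶠ v ∈ Pv, dY (FF g v) s x y := by
  classical
  set S : ℝ := |s| + 1 with hSdef
  set R : ℝ := |x| + 2 * y + 2 / y with hRdef
  have hS : 0 < S := by positivity
  have hR : 0 < R := by positivity
  have hfin := hLF g hg 0 1 S R one_pos hS hR
  set F := hfin.toFinset with hF
  have hnear : ∀ t ∈ Set.Ioo (y / 2) (2 * y), ∀ v ∈ Pv, v ∉ F → FF g v s x t = 0 := by
    intro t ht v hv hvF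
    by_contra hne
    refine hvF ?_
    rw [hF, Set.Finite.mem_toFinset]
    refine ⟨hv, s, x, t, ?_, ?_, ?_, ?_, hne⟩
    · linarith
    · have : 0 < 2 * y + 2 / y := by positivity
      linarith
    · have h1 : 2 / y ≤ R := by
        have : 0 ≤ |x| := abs_nonneg x
        linarith
      have h2 : 1 / R ≤ 1 / (2 / y) := one_div_le_one_div_of_le (by positivity) h1
      have h3 : 1 / (2 / y) = y / 2 := by field_simp
      linarith [ht.1]
    · have : 0 ≤ |x| := abs_nonneg x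
      have h2 : 0 < 2 / y := by positivity
      linarith [ht.2]
  have hsum : ∀ t ∈ Set.Ioo (y / 2) (2 * y), ww g s x t = 1 / 2 * ∑ v ∈ F, FF g v s x t := by
    intro t ht
    rw [ww, finsum_mem_def]
    congr 1
    rw [finsum_eq_sum_of_support_subset (s := F)]
    · refine Finset.sum_congr rfl fun v hv => ?_
      rw [hF, Set.Finite.mem_toFinset] at hv
      rw [Set.indicator_of_mem hv.1]
    · intro v hv
      rw [Function.mem_support] at hv
      have hvP : v ∈ Pv := by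
        by_contra hh
        exact hv (Set.indicator_of_notMem hh _)
      rw [Set.indicator_of_mem hvP] at hv
      by_contra hvF
      exact hv (hnear t ht v hvP hvF)
  have hmem : Set.Ioo (y / 2) (2 * y) ∈ nhds y := Ioo_mem_nhds (by linarith) (by linarith)
  have hd : ∀ v ∈ F, HasDerivAt (fun t => FF g v s x t) (dY (FF g v) s x y) y := by
    intro v hv
    rw [hF, Set.Finite.mem_toFinset] at hv
    exact ((hBS _ (W7_sm hRA hB01 hMOB hMG hg hv.1)).2.2.2 s x y hy).2.2.1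
  have h1 : HasDerivAt (fun t => ww g s x t) (1 / 2 * ∑ v ∈ F, dY (FF g v) s x y) y := by
    have h2 := (HasDerivAt.fun_sum hd).const_mul (1 / 2 : ℝ)
    refine h2.congr_of_eventuallyEq ?_
    filter_upwards [hmem] with t ht
    exact hsum t ht
  have h3 : dY (ww g) s x y = 1 / 2 * ∑ v ∈ F, dY (FF g v) s x y := h1.deriv
  rw [h3, finsum_mem_def]
  congr 1
  rw [finsum_eq_sum_of_support_subset (s := F)]
  · refine Finset.sum_congr rfl fun v hv => ?_
    rw [hF, Set.Finite.mem_toFinset] at hv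
    rw [Set.indicator_of_mem hv.1]
  · intro v hv
    rw [Function.mem_support] at hv
    have hvP : v ∈ Pv := by
      by_contra hh
      exact hv (Set.indicator_of_notMem hh _)
    rw [Set.indicator_of_mem hvP] at hv
    by_contra hvF
    refine hv ?_
    have h4 : (fun t => FF g v s x t) =ᶠ[nhds y] fun _ => (0 : ℝ) := by
      filter_upwards [hmem] with t ht
      exact hnear t ht v hvP hvF
    show deriv (fun t => FF g v s x t) y = 0
    rw [h4.deriv_eq, deriv_const]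

theorem W7 (hW7A : W7A_stmt) (hRB : RB_stmt) (hWS : WS_stmt) (hBS : BS_stmt) (hRA : RA_stmt)
    (hB01 : B01_stmt) (hMOB : MOB_stmt) (hMG : MG_stmt) (hLF : LF_stmt) : W7_stmt := by
  obtain ⟨C1, hC1, T, hT⟩ := hW7A
  obtain ⟨C2, hC2, hR⟩ := hRB
  set K : ℝ := C2 * Real.exp (5 / 2) * (1 + Real.exp 5) ^ 4 with hK
  have hKpos : 0 < K := by positivity
  refine ⟨T.card * (2 * C1) + 2 * K, by positivity, fun g B hg hB x y hy hx hxy => ?_⟩
  have hB0 : 0 ≤ B := le_trans (abs_nonneg _) (hB 0 (by norm_num) 0)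
  have hy2 : 1 / 2 ≤ y := by
    have h1 : x ^ 2 ≤ 1 / 4 := by
      have := abs_le.1 hx
      nlinarith
    nlinarith
  -- the terms `(0, ± 1)`
  have hM : ∀ n : ℤ, |RR g (5 / 2) (x + n) y n| ≤ K * B / y ∧
      |dX (fun s x y => RR g s x y n) (5 / 2) (x + n) y| ≤ K * B / y ^ 2 ∧
      |dY (fun s x y => RR g s x y n) (5 / 2) (x + n) y| ≤ K * B / y ^ 2 := by
    intro n
    obtain ⟨r1, r2, r3⟩ := hR g B hg hB (5 / 2) (x + n) y n hy
    have hle : C2 * B * Real.exp (5 / 2) * (1 + Real.exp (2 * (5 / 2)) / (25 * y)) ^ 4 ≤ K * B := by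
      have e5 : Real.exp (2 * (5 / 2)) = Real.exp 5 := by norm_num
      have h1 : Real.exp (2 * (5 / 2)) / (25 * y) ≤ Real.exp 5 := by
        rw [e5]
        refine div_le_self (Real.exp_pos 5).le ?_
        linarith
      have h2 : (1 + Real.exp (2 * (5 / 2)) / (25 * y)) ^ 4 ≤ (1 + Real.exp 5) ^ 4 :=
        pow_le_pow_left₀ (by positivity) (by linarith) 4
      calc C2 * B * Real.exp (5 / 2) * (1 + Real.exp (2 * (5 / 2)) / (25 * y)) ^ 4
          ≤ C2 * B * Real.exp (5 / 2) * (1 + Real.exp 5) ^ 4 :=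
            mul_le_mul_of_nonneg_left h2 (by positivity)
        _ = K * B := by rw [hK]; ring
    exact ⟨r1.trans (div_le_div_of_nonneg_right hle hy.le),
      r2.trans (div_le_div_of_nonneg_right hle (by positivity)),
      r3.trans (div_le_div_of_nonneg_right hle (by positivity))⟩
  have a0 : 0 ≤ C1 * B / y ^ 2 := by positivity
  have hy12 : 1 / y ^ 2 ≤ 2 / y := by
    rw [div_le_div_iff₀ (by positivity) hy]
    nlinarith
  -- the sums
  have s1 : |∑ᶠ v ∈ Pv, FF g v (5 / 2) x y| ≤ T.card * (C1 * B / y ^ 2) + 2 * (K * B / y) := by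
    refine W7_sum T _ _ _ a0 (fun v hv hv0 hvT => ?_) (fun v hv hv0 => ?_) (fun v hv => ?_)
    · exact ((hT g B hg hB x y hy hx hxy v hv hv0).2.2.2 hvT).1
    · exact (hT g B hg hB x y hy hx hxy v hv hv0).1
    · obtain ⟨n, hn⟩ := W7_FF hv
      rw [hn]
      exact (hM n).1
  have s2 : |∑ᶠ v ∈ Pv, dX (FF g v) (5 / 2) x y| ≤
      T.card * (C1 * B / y ^ 2) + 2 * (K * B / y ^ 2) := by
    refine W7_sum T _ _ _ a0 (fun v hv hv0 hvT => ?_) (fun v hv hv0 => ?_) (fun v hv => ?_)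
    · exact ((hT g B hg hB x y hy hx hxy v hv hv0).2.2.2 hvT).2.1
    · exact (hT g B hg hB x y hy hx hxy v hv hv0).2.1
    · obtain ⟨n, hn⟩ := W7_FF hv
      have e : dX (FF g v) (5 / 2) x y = dX (fun s x y => RR g s x y n) (5 / 2) (x + n) y := by
        show deriv (fun t => FF g v (5 / 2) t y) x = deriv (fun t => RR g (5 / 2) t y n) (x + n)
        have h1 : (fun t => FF g v (5 / 2) t y) = fun t => (fun u => RR g (5 / 2) u y n) (t + n) :=
          funext fun t => hn g (5 / 2) t y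
        rw [h1]
        exact deriv_comp_add_const (fun u => RR g (5 / 2) u y n) (n : ℝ) x
      rw [e]
      exact (hM n).2.1
  have s3 : |∑ᶠ v ∈ Pv, dY (FF g v) (5 / 2) x y| ≤
      T.card * (C1 * B / y ^ 2) + 2 * (K * B / y ^ 2) := by
    refine W7_sum T _ _ _ a0 (fun v hv hv0 hvT => ?_) (fun v hv hv0 => ?_) (fun v hv => ?_)
    · exact ((hT g B hg hB x y hy hx hxy v hv hv0).2.2.2 hvT).2.2
    · exact (hT g B hg hB x y hy hx hxy v hv hv0).2.2.1
    · obtain ⟨n, hn⟩ := W7_FF hv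
      have e : dY (FF g v) (5 / 2) x y = dY (fun s x y => RR g s x y n) (5 / 2) (x + n) y := by
        show deriv (fun t => FF g v (5 / 2) x t) y = deriv (fun t => RR g (5 / 2) (x + n) t n) y
        have h1 : (fun t => FF g v (5 / 2) x t) = fun t => RR g (5 / 2) (x + n) t n :=
          funext fun t => hn g (5 / 2) x t
        rw [h1]
      rw [e]
      exact (hM n).2.2
  have hKB : 0 ≤ K * B := by positivity
  have hCB : 0 ≤ C1 * B := by positivity
  have hc0 : (0 : ℝ) ≤ T.card := Nat.cast_nonneg _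
  have q2 : ∀ S : ℝ, |S| ≤ T.card * (C1 * B / y ^ 2) + 2 * (K * B / y ^ 2) →
      |1 / 2 * S| ≤ (T.card * (2 * C1) + 2 * K) * B / y ^ 2 := by
    intro S hS
    rw [abs_mul, abs_of_pos (by norm_num : (0 : ℝ) < 1 / 2)]
    have h1 : (T.card * (2 * C1) + 2 * K) * B / y ^ 2 =
        2 * (T.card * (C1 * B / y ^ 2) + (K * B / y ^ 2)) := by ring
    have h2 : 0 ≤ K * B / y ^ 2 := by positivity
    have h3 : 0 ≤ T.card * (C1 * B / y ^ 2) := by positivity
    rw [h1]
    linarith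
  refine ⟨?_, ?_, ?_⟩
  · rw [ww, abs_mul, abs_of_pos (by norm_num : (0 : ℝ) < 1 / 2)]
    have h1 : (T.card * (2 * C1) + 2 * K) * B / y =
        T.card * (C1 * B * (2 / y)) + 2 * (K * B / y) := by ring
    have h2 : C1 * B / y ^ 2 ≤ C1 * B * (2 / y) := by
      have h3 : C1 * B / y ^ 2 = C1 * B * (1 / y ^ 2) := by ring
      rw [h3]
      exact mul_le_mul_of_nonneg_left hy12 hCB
    have h4 : T.card * (C1 * B / y ^ 2) ≤ T.card * (C1 * B * (2 / y)) :=
      mul_le_mul_of_nonneg_left h2 hc0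
    have h5 : 0 ≤ T.card * (C1 * B / y ^ 2) := by positivity
    have h6 : 0 ≤ K * B / y := by positivity
    rw [h1]
    linarith
  · rw [((hWS g hg).2.2.2.2 (5 / 2) x y hy).2]
    exact q2 _ s2
  · rw [W7_dY hBS hRA hB01 hMOB hMG hLF hg (5 / 2) x y hy]
    exact q2 _ s3

end SF
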